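import Pool.Agent.Lib.MP_6db48f_an.Exist

/-!
# MP_6db48f_an : gap labels of the KNS measure of the basilica Schreier graphs

Full positive answer to Q1: the gap label of every gap of the KNS measure is a dyadic rational.

The definitions used in the statement are `act` (the two generators of the basilica group acting
on words; file `Words`), `W`, `actV`, `adj`, `lap` (the Schreier graph `Γ_n`, its adjacency matrix
and its Laplacian; file `Graph`), `nu`, `IsKNS`, `IsGap` (spectral counting measures, KNS measure,
gaps; file `Limit`), all in `Pool/Agent/Lib/MP_6db48f_an/`.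
-/

open MeasureTheory Filter Set

namespace Pool.Agent.Results.MP_6db48f_an.GapLabelsDyadic

open Pool.Agent.Lib.MP_6db48f_an

/-- The KNS measure of the basilica Schreier graphs exists, and for every gap `U` of it the gap
label `μ((-∞, x])`, `x ∈ U`, is a dyadic rational `j / 2 ^ k`. -/
theorem result :
    (∃ μ : Measure ℝ, IsKNS μ) ∧
    ∀ μ : Measure ℝ, IsKNS μ → ∀ U : Set ℝ, IsGap μ U →
      ∃ (j : ℤ) (k : ℕ), ∀ x ∈ U, μ.real (Iic x) = (j : ℝ) / 2 ^ k := by
  refine ⟨exists_kns, ?_⟩
  intro μ hμ U hU
  have := hμ.prob
  obtain ⟨-, x₀, hx₀, rfl⟩ := hU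
  obtain ⟨g, n, -, hn⟩ := label hμ (show x₀ ∉ μ.support from hx₀)
  refine ⟨(cnt (lap n) x₀ : ℤ), n, fun x hx => ?_⟩
  have hsub : connectedComponentIn μ.supportᶜ x₀ ⊆ μ.supportᶜ := connectedComponentIn_subset _ _
  have hmem : x₀ ∈ connectedComponentIn μ.supportᶜ x₀ := mem_connectedComponentIn hx₀
  have hconn : OrdConnected (connectedComponentIn μ.supportᶜ x₀) :=
    isPreconnected_connectedComponentIn.ordConnected
  have hnull : μ (connectedComponentIn μ.supportᶜ x₀) = 0 :=
    measure_mono_null hsub Measure.measure_compl_support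
  have heq : μ (Iic x) = μ (Iic x₀) := by
    rcases le_total x x₀ with h | h
    · apply le_antisymm (measure_mono (Iic_subset_Iic.mpr h))
      have h1 : Iic x₀ ⊆ Iic x ∪ connectedComponentIn μ.supportᶜ x₀ := by
        intro y hy
        rcases le_total y x with h2 | h2
        · left; exact h2
        · right; exact hconn.out hx hmem ⟨h2, hy⟩
      exact (measure_mono h1).trans ((measure_union_le _ _).trans (by rw [hnull, add_zero]))
    · apply le_antisymm _ (measure_mono (Iic_subset_Iic.mpr h))
      have h1 : Iic x ⊆ Iic x₀ ∪ connectedComponentIn μ.supportᶜ x₀ := by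
        intro y hy
        rcases le_total y x₀ with h2 | h2
        · left; exact h2
        · right; exact hconn.out hmem hx ⟨h2, hy⟩
      exact (measure_mono h1).trans ((measure_union_le _ _).trans (by rw [hnull, add_zero]))
  have h2 : μ.real (Iic x) = μ.real (Iic x₀) := by
    unfold Measure.real; rw [heq]
  rw [h2, hn]
  push_cast
  rfl

end Pool.Agent.Results.MP_6db48f_an.GapLabelsDyadic
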